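import Pool.Agent.Helper64.Rig.Basics

/-!
# The covering curve is not a rational normal curve (MP_148db9_ag)
-/

namespace Pool.Agent.Helper92.Rig

open MvPolynomial Module Pool.Agent.Helper64.Rig

/-- The dehomogenisation of a binary form. -/
noncomputable def deh : MvPolynomial (Fin 2) ℂ →ₐ[ℂ] Polynomial ℂ := aeval ![Polynomial.X, 1]

theorem deh_inj {G : MvPolynomial (Fin 2) ℂ} {d : ℕ} (hG : G.IsHomogeneous d) (h : deh G = 0) :
    G = 0 := by
  ext m
  rw [coeff_zero]
  by_contra hm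
  have hd : m.degree = d := degree_of_homog hG hm
  have h1 : deh G = ∑ m' ∈ G.support, Polynomial.C (coeff m' G) * Polynomial.X ^ (m' 0) := by
    rw [deh, aeval_def, eval₂_eq']
    refine Finset.sum_congr rfl fun m' _ => ?_
    simp [Fin.prod_univ_two]
  have h2 : (deh G).coeff (m 0) = coeff m G := by
    rw [h1, Polynomial.finsetSum_coeff, Finset.sum_eq_single m]
    · simp
    · intro b hb hbm
      rw [Polynomial.coeff_C_mul, Polynomial.coeff_X_pow, if_neg, mul_zero]
      intro h0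
      apply hbm
      have hb' : b.degree = d := degree_of_homog hG (MvPolynomial.mem_support_iff.1 hb)
      rw [Finsupp.degree_eq_sum, Fin.sum_univ_two] at hb' hd
      ext i
      fin_cases i
      · exact h0.symm
      · show b 1 = m 1
        omega
    · intro h0
      rw [MvPolynomial.mem_support_iff, not_not] at h0
      exact absurd h0 hm
  rw [h, Polynomial.coeff_zero] at h2
  exact hm h2.symm

/-- Fermat for binary forms: two of the solutions are proportional. -/
theorem fermat_prop {a b c : Polynomial ℂ} (ha : a ≠ 0) (hb : b ≠ 0) (hc : c ≠ 0)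
    (h : a ^ 5 + b ^ 5 + c ^ 5 = 0) :
    ∃ α β : ℂ, β ≠ 0 ∧ Polynomial.C β * a = Polynomial.C α * b := by
  classical
  obtain ⟨a', b', ha', hb', hu⟩ := extract_gcd a b
  set D := gcd a b with hD
  have hD0 : D ≠ 0 := by
    intro h0
    rw [h0, zero_mul] at ha'
    exact ha ha'
  have hcop : IsCoprime a' b' := (gcd_isUnit_iff a' b').1 hu
  have hdvd : D ^ 5 ∣ c ^ 5 := by
    refine ⟨-(a' ^ 5 + b' ^ 5), ?_⟩
    have e : c ^ 5 = -(a ^ 5 + b ^ 5) := by linear_combination h
    rw [e, ha', hb']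
    ring
  have hdvd' : D ∣ c := (IsIntegrallyClosed.pow_dvd_pow_iff (by norm_num)).1 hdvd
  obtain ⟨c', hc'⟩ := hdvd'
  have ha0 : a' ≠ 0 := by rintro rfl; exact ha (by rw [ha', mul_zero])
  have hb0 : b' ≠ 0 := by rintro rfl; exact hb (by rw [hb', mul_zero])
  have hc0 : -c' ≠ 0 := by
    intro h0
    exact hc (by rw [hc', neg_eq_zero.1 h0, mul_zero])
  have heq : a' ^ 5 + b' ^ 5 = (-c') ^ 5 := by
    have e : D ^ 5 * (a' ^ 5 + b' ^ 5 - (-c') ^ 5) = 0 := by
      have := h
      rw [ha', hb', hc'] at this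
      linear_combination this
    have := (mul_eq_zero.1 e).resolve_left (pow_ne_zero _ hD0)
    exact sub_eq_zero.1 this
  have key := Polynomial.flt (k := ℂ) (n := 5) (by norm_num) (by norm_num) ha0 hb0 hc0 hcop heq
  obtain ⟨h1, h2, -⟩ := key
  obtain ⟨α, hα⟩ := Polynomial.natDegree_eq_zero.1 h1
  obtain ⟨β, hβ⟩ := Polynomial.natDegree_eq_zero.1 h2
  refine ⟨α, β, ?_, ?_⟩
  · rintro rfl
    exact hb0 (by rw [← hβ, map_zero])
  · rw [ha', hb', hα, hβ]
    ring

theorem pf_NotRNC : StmtNotRNC := by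
  rintro K _ _ ζ x h ⟨f, hf, -, hI⟩
  have mem : ∀ G : MvPolynomial Jx ℂ, aeval f G = 0 ↔ aeval x G = 0 := by
    intro G
    have h1 : G ∈ II x ↔ aeval x G = 0 := Iff.rfl
    have h2 : G ∈ RingHom.ker (aeval f : MvPolynomial Jx ℂ →ₐ[ℂ] MvPolynomial (Fin 2) ℂ) ↔
      aeval f G = 0 := Iff.rfl
    rw [← h1, ← h2, hI]
  have hpx : ∀ i, aeval x (pr X i : MvPolynomial Jx ℂ) = pr x i := fun i => by simp [pr]
  have hpf : ∀ i, aeval f (pr X i : MvPolynomial Jx ℂ) = pr f i := fun i => by simp [pr]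
  have hne : ∀ i, pr f i ≠ 0 := by
    intro i h0
    rw [← hpf, mem, hpx] at h0
    exact pr_ne h i h0
  have hsum : pr f 0 ^ 5 + pr f 1 ^ 5 + pr f 2 ^ 5 = 0 := by
    have : aeval f ((pr X 0 : MvPolynomial Jx ℂ) ^ 5 + pr X 1 ^ 5 + pr X 2 ^ 5) = 0 := by
      rw [mem]
      simp only [map_add, map_pow, hpx]
      exact fermat h
    simpa only [map_add, map_pow, hpf] using this
  set N := Fintype.card Jx - 1 with hN
  have hhom : ∀ i, (pr f i).IsHomogeneous (∑ _k : Fin 5, N) := fun i =>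
    IsHomogeneous.prod _ _ _ fun k _ => hf (i, k)
  have hne' : ∀ i, deh (pr f i) ≠ 0 := fun i h0 => hne i (deh_inj (hhom i) h0)
  obtain ⟨α, β, hβ, hab⟩ := fermat_prop (hne' 1) (hne' 2) (hne' 0) (by
    have := congrArg deh hsum
    simp only [map_add, map_pow, map_zero] at this
    linear_combination this)
  have h1 : C β * pr f 1 - C α * pr f 2 = 0 := by
    refine deh_inj (d := ∑ _k : Fin 5, N) (((hhom 1).C_mul β).sub ((hhom 2).C_mul α)) ?_
    rw [map_sub, map_mul, map_mul, algHom_C, algHom_C]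
    rw [Polynomial.algebraMap_apply, Polynomial.algebraMap_apply]
    simpa [sub_eq_zero] using hab
  have h2 : aeval x (C β * pr X 1 - C α * pr X 2 : MvPolynomial Jx ℂ) = 0 := by
    rw [← mem]
    simpa only [map_sub, map_mul, hpf, algHom_C, MvPolynomial.algebraMap_eq] using h1
  have h3 := indep_lin h (G := C β * X 0 - C α * X 1) (by
    simp only [map_sub, map_mul, hpx, algHom_C] at h2
    simpa [algHom_C] using h2)
  have h4 := congrArg (eval ![1, 0]) h3
  simp at h4
  exact hβ h4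

end Pool.Agent.Helper92.Rig
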